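import Pool.Agent.Lib.MP_9c8c11_gt.Strong

/-!
# `Sq^0` on the cohomology of the mod 2 Steenrod algebra is an isomorphism in all internal
degrees divisible by a large power of 2

`Ext^{s,t}` is computed by the cobar complex of the dual Steenrod algebra
`A_* = F_2[ξ_1, ξ_2, …]`: cochains `C^s = A_*^{⊗ s}`, a polynomial ring in the variables
`X (i, n) = ξ_{n+1}` in the `i`-th factor, with the unnormalised differential `∑_j d^j`
(`d^0 = 1 ⊗ -`, `d^{s+1} = - ⊗ 1`, `d^j` = Milnor coproduct in the `j`-th factor).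
`Sq^0` is induced by the Frobenius `x ↦ x²` of the cochains.
-/

set_option autoImplicit false

noncomputable section

namespace Pool.Agent.Results.MP_9c8c11_gt.StableSquaring

open MvPolynomial

/-- The cochains `A_*^{⊗ s}`; `X (i, n)` is the generator `ξ_{n+1}` in the `i`-th factor. -/
abbrev C (s : ℕ) : Type := MvPolynomial (Fin s × ℕ) (ZMod 2)

/-- `ξ_n` in the `i`-th factor (`ξ_0 = 1`). -/
def xi {s : ℕ} (i : Fin s) : ℕ → C s
  | 0 => 1
  | n + 1 => X (i, n)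

/-- The Milnor coproduct `ξ_{n+1} ↦ ∑_k ξ_{n+1-k}^{2^k} ⊗ ξ_k`, the two tensor factors being the
factors `i` and `i + 1`. -/
def cop {s : ℕ} (i : Fin s) (n : ℕ) : C (s + 1) :=
  ∑ k ∈ Finset.range (n + 2), xi i.castSucc (n + 1 - k) ^ 2 ^ k * xi i.succ k

/-- The values of the `j`-th coface on the generators: the factor number `i` (counted from `1`)
goes to the factor `i` if `i < j`, to the factor `i + 1` if `j < i`, and for `i = j` the Milnor
coproduct is applied. -/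
def cofX (s j : ℕ) (p : Fin s × ℕ) : C (s + 1) :=
  if (p.1 : ℕ) + 1 < j then X (p.1.castSucc, p.2)
  else if j < (p.1 : ℕ) + 1 then X (p.1.succ, p.2)
  else cop p.1 p.2

/-- The `j`-th coface `C^s → C^{s+1}`, `0 ≤ j ≤ s + 1`. -/
def coface (s j : ℕ) : C s →ₐ[ZMod 2] C (s + 1) := aeval (cofX s j)

/-- The differential of the cobar complex. -/
def d (s : ℕ) : C s →ₗ[ZMod 2] C (s + 1) :=
  ∑ j ∈ Finset.range (s + 2), (coface s j).toLinearMap

/-- The cocycles. -/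
abbrev Z (s : ℕ) : Submodule (ZMod 2) (C s) := LinearMap.ker (d s)

/-- The coboundaries. -/
def B : (s : ℕ) → Submodule (ZMod 2) (C s)
  | 0 => ⊥
  | s + 1 => LinearMap.range (d s)

/-- `Ext^s = Ext^s_A(F_2, F_2)`. -/
def Ext (s : ℕ) : Type := Z s ⧸ (B s).comap (Z s).subtype

instance (s : ℕ) : AddCommGroup (Ext s) :=
  inferInstanceAs (AddCommGroup (Z s ⧸ (B s).comap (Z s).subtype))

instance (s : ℕ) : Module (ZMod 2) (Ext s) :=
  inferInstanceAs (Module (ZMod 2) (Z s ⧸ (B s).comap (Z s).subtype))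

/-- The class of a cocycle. -/
def cls (s : ℕ) : Z s →ₗ[ZMod 2] Ext s := ((B s).comap (Z s).subtype).mkQ

/-- The Frobenius of the cochains. -/
def sq (s : ℕ) : C s →ₗ[ZMod 2] C s where
  toFun x := x ^ 2
  map_add' x y := add_pow_char x y 2
  map_smul' c x := by
    rw [smul_pow]
    congr 1
    revert c
    decide

theorem d_apply (s : ℕ) (x : C s) : d s x = ∑ j ∈ Finset.range (s + 2), coface s j x := by
  rw [d, LinearMap.sum_apply]
  rfl

theorem d_sq (s : ℕ) (x : C s) : d s (x ^ 2) = (d s x) ^ 2 := by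
  rw [d_apply, d_apply]
  simp only [map_pow]
  exact (sum_pow_char 2 _ _).symm

theorem sq_mem_Z {s : ℕ} {x : C s} (hx : x ∈ Z s) : sq s x ∈ Z s := by
  rw [LinearMap.mem_ker] at hx ⊢
  show d s (x ^ 2) = 0
  rw [d_sq, hx, zero_pow two_ne_zero]

theorem sq_mem_B : ∀ {s : ℕ} {x : C s}, x ∈ B s → sq s x ∈ B s
  | 0, x, hx => by
    have h : x = 0 := hx
    rw [h, map_zero]
    exact Submodule.zero_mem _
  | s + 1, x, hx => by
    obtain ⟨y, rfl⟩ := hx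
    exact ⟨y ^ 2, d_sq s y⟩

/-- The Frobenius on the cocycles. -/
def sqZ (s : ℕ) : Z s →ₗ[ZMod 2] Z s := (sq s).restrict fun _ hx => sq_mem_Z hx

/-- The classical squaring operation `Sq^0 : Ext^s → Ext^s` as a linear map. -/
def Sq0L (s : ℕ) : Ext s →ₗ[ZMod 2] Ext s :=
  Submodule.mapQ ((B s).comap (Z s).subtype) ((B s).comap (Z s).subtype) (sqZ s)
    fun _ hx => sq_mem_B hx

/-- The classical squaring operation `Sq^0 : Ext^s → Ext^s`. -/
def Sq0 (s : ℕ) (x : Ext s) : Ext s := Sq0L s x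

/-- The internal degree: `ξ_{n+1}` has degree `2^{n+1} - 1`. -/
def deg (s : ℕ) (p : Fin s × ℕ) : ℕ := 2 ^ (p.2 + 1) - 1

/-- `Ext^{s,t}`, the classes of homogeneous cocycles of degree `t`. -/
def ExtD (s t : ℕ) : Set (Ext s) :=
  {x | ∃ z : Z s, IsWeightedHomogeneous (deg s) (z : C s) t ∧ cls s z = x}

/-! ### proofs -/

theorem coface_eq (s j : ℕ) : coface s j = aeval (Lib.SqZ.fz s j) := by
  unfold coface
  congr 1
  funext p
  unfold Lib.SqZ.fz cofX cop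
  by_cases h1 : (p.1 : ℕ) + 1 < j
  · rw [if_pos h1, if_pos h1]
  · rw [if_neg h1, if_neg h1]
    by_cases h2 : (j : ℕ) < (p.1 : ℕ) + 1
    · rw [if_pos h2, if_pos h2]
    · rw [if_neg h2, if_neg h2]
      refine Finset.sum_congr rfl fun k hk => ?_
      rw [Finset.mem_range] at hk
      congr 1
      · congr 1
        by_cases h3 : k = p.2 + 1
        · rw [if_pos h3, h3, Nat.sub_self]
          rfl
        · rw [if_neg h3, show p.2 + 1 - k = (p.2 - k) + 1 by omega]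
          rfl
      · cases k with
        | zero => rfl
        | succ k => rfl

theorem d_eq (s : ℕ) (x : C s) : d s x = Lib.SqZ.dC s x := by
  rw [d_apply, Lib.SqZ.dC, Finset.sum_range]
  exact Finset.sum_congr rfl fun j _ => by rw [coface_eq]

theorem Sq0_cls (s : ℕ) (z : Z s) : Sq0 s (cls s z) = cls s (sqZ s z) := rfl

theorem Sq0_sub (s : ℕ) (x y : Ext s) : Sq0 s (x - y) = Sq0 s x - Sq0 s y :=
  map_sub (Sq0L s) x y

theorem iter_sub (s n : ℕ) (x y : Ext s) :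
    (Sq0 s)^[n] (x - y) = (Sq0 s)^[n] x - (Sq0 s)^[n] y := by
  induction n generalizing x y with
  | zero => rfl
  | succ n ih => rw [Function.iterate_succ_apply, Sq0_sub, ih]; rfl

theorem cls_eq_zero {s : ℕ} {z : Z s} : cls s z = 0 ↔ (z : C s) ∈ B s :=
  Submodule.Quotient.mk_eq_zero ((B s).comap (Z s).subtype)

theorem cls_surj (s : ℕ) (x : Ext s) : ∃ z, cls s z = x :=
  Submodule.mkQ_surjective ((B s).comap (Z s).subtype) x

theorem mapsTo (s t : ℕ) : Set.MapsTo (Sq0 s) (ExtD s t) (ExtD s (2 * t)) := by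
  rintro x ⟨z, hz, rfl⟩
  refine ⟨sqZ s z, ?_, (Sq0_cls s z).symm⟩
  exact hz.pow 2

theorem injOn (s : ℕ) : ∃ N : ℕ, ∀ k ≥ N, ∀ w : ℕ,
    Set.InjOn (Sq0 s) (ExtD s (2 ^ k * w)) := by
  have key : ∃ N : ℕ, ∀ k ≥ N, ∀ w : ℕ, ∀ x ∈ ExtD s (2 ^ k * w), Sq0 s x = 0 → x = 0 := by
    cases s with
    | zero =>
      refine ⟨0, fun k _ w x hx h => ?_⟩
      obtain ⟨z, -, rfl⟩ := hx
      rw [Sq0_cls, cls_eq_zero] at h
      rw [cls_eq_zero]
      have h1 : (z : C 0) ^ 2 = 0 := h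
      have h2 : (z : C 0) = 0 := pow_eq_zero_iff two_ne_zero |>.1 h1
      rw [h2]
      exact Submodule.zero_mem _
    | succ s =>
      obtain ⟨r, hr⟩ := Lib.SqZ.inj_C s
      refine ⟨r, fun k hk w x hx h => ?_⟩
      obtain ⟨z, hz, rfl⟩ := hx
      rw [Sq0_cls, cls_eq_zero] at h
      rw [cls_eq_zero]
      obtain ⟨y, hy⟩ := h
      obtain ⟨u, hu⟩ := hr k hk w (z : C (s + 1)) hz ⟨y, by rw [← d_eq]; exact hy⟩
      exact ⟨u, by rw [d_eq]; exact hu⟩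
  obtain ⟨N, hN⟩ := key
  refine ⟨N, fun k hk w x hx y hy hxy => ?_⟩
  have hsub : x - y ∈ ExtD s (2 ^ k * w) := by
    obtain ⟨z, hz, rfl⟩ := hx
    obtain ⟨z', hz', rfl⟩ := hy
    exact ⟨z - z', (weightedHomogeneousSubmodule (ZMod 2) (deg s) (2 ^ k * w)).sub_mem hz hz',
      map_sub _ _ _⟩
  have h := hN k hk w (x - y) hsub (by rw [Sq0_sub, hxy, sub_self])
  exact sub_eq_zero.1 h

theorem surjOn (s : ℕ) : ∃ N : ℕ, ∀ k ≥ N, ∀ w : ℕ,
    Set.SurjOn (Sq0 s) (ExtD s (2 ^ k * w)) (ExtD s (2 ^ (k + 1) * w)) := by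
  cases s with
  | zero =>
    obtain ⟨r, hr⟩ := Lib.SqZ.surj_zero
    refine ⟨r, fun k hk w x hx => ?_⟩
    obtain ⟨z, hz, rfl⟩ := hx
    obtain ⟨u, hu, hud, huz⟩ := hr k hk w (z : C 0) hz (by rw [← d_eq]; exact z.2)
    have hmem : u ∈ Z 0 := by rw [LinearMap.mem_ker, d_eq]; exact hud
    refine ⟨cls 0 ⟨u, hmem⟩, ⟨⟨u, hmem⟩, hu, rfl⟩, ?_⟩
    rw [Sq0_cls]
    congr 1
    exact Subtype.ext huz.symm
  | succ s =>
    obtain ⟨r, hr⟩ := Lib.SqZ.surj_succ s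
    refine ⟨r, fun k hk w x hx => ?_⟩
    obtain ⟨z, hz, rfl⟩ := hx
    obtain ⟨u, hu, hud, v, hv⟩ := hr k hk w (z : C (s + 1)) hz (by rw [← d_eq]; exact z.2)
    have hmem : u ∈ Z (s + 1) := by rw [LinearMap.mem_ker, d_eq]; exact hud
    refine ⟨cls (s + 1) ⟨u, hmem⟩, ⟨⟨u, hmem⟩, hu, rfl⟩, ?_⟩
    rw [Sq0_cls, ← sub_eq_zero, ← map_sub, cls_eq_zero]
    refine ⟨v, ?_⟩
    show d s v = u ^ 2 - (z : C (s + 1))
    rw [← hv, d_eq, add_sub_cancel_left]

theorem pow_cls (s n : ℕ) (z : Z s) : ∃ z' : Z s, (z' : C s) = (z : C s) ^ 2 ^ n ∧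
    (Sq0 s)^[n] (cls s z) = cls s z' := by
  induction n with
  | zero => exact ⟨z, by simp, rfl⟩
  | succ n ih =>
    obtain ⟨z', h1, h2⟩ := ih
    refine ⟨sqZ s z', ?_, ?_⟩
    · show (z' : C s) ^ 2 = _
      rw [h1, ← pow_mul, pow_succ 2 n]
    · rw [Function.iterate_succ_apply', h2, Sq0_cls]

theorem bounded (s : ℕ) : ∃ r : ℕ, ∀ (i : ℕ) (x : Ext s), (Sq0 s)^[r + i] x = 0 →
    (Sq0 s)^[r] x = 0 := by
  cases s with
  | zero =>
    refine ⟨0, fun i x h => ?_⟩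
    obtain ⟨z, rfl⟩ := cls_surj 0 x
    obtain ⟨z', h1, h2⟩ := pow_cls 0 (0 + i) z
    rw [h2, cls_eq_zero] at h
    have h3 : (z : C 0) ^ 2 ^ (0 + i) = 0 := by
      rw [← h1]
      exact h
    have h4 : (z : C 0) = 0 := pow_eq_zero_iff (by positivity) |>.1 h3
    have h5 : cls 0 z = 0 := by
      rw [cls_eq_zero, h4]
      exact Submodule.zero_mem _
    exact h5
  | succ s =>
    obtain ⟨r, hr⟩ := Lib.SqZ.final_result Lib.SqZ.dC (fun _ _ => rfl) s
    refine ⟨r, fun i x h => ?_⟩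
    obtain ⟨z, rfl⟩ := cls_surj (s + 1) x
    obtain ⟨z', h1, h2⟩ := pow_cls (s + 1) (r + i) z
    obtain ⟨z'', h3, h4⟩ := pow_cls (s + 1) r z
    rw [h2, cls_eq_zero] at h
    obtain ⟨y, hy⟩ := h
    rw [h4, cls_eq_zero, h3]
    obtain ⟨u, hu⟩ := hr (z : C (s + 1)) i ⟨y, by rw [← d_eq, hy, h1]⟩
    exact ⟨u, by rw [d_eq, hu]⟩

/-- (1) For every `s` there is `N` such that `Sq^0 : Ext^{s,t} → Ext^{s,2t}` is bijective for all
internal degrees `t` divisible by `2 ^ N`.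
(2) (Q1) For every `s` there is `r` such that for all `i ≥ r` the map
`(Sq^0)^{i-r} : Im (Sq^0)^r → Im (Sq^0)^i` is bijective. -/
theorem result :
    (∀ s : ℕ, ∃ N : ℕ, ∀ t : ℕ, 2 ^ N ∣ t → Set.BijOn (Sq0 s) (ExtD s t) (ExtD s (2 * t))) ∧
    (∀ s : ℕ, ∃ r : ℕ, ∀ i ≥ r,
      Set.BijOn (Sq0 s)^[i - r] (Set.range (Sq0 s)^[r]) (Set.range (Sq0 s)^[i])) := by
  refine ⟨fun s => ?_, fun s => ?_⟩
  · obtain ⟨N, hN⟩ := injOn s
    obtain ⟨M, hM⟩ := surjOn s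
    refine ⟨max N M, ?_⟩
    rintro _ ⟨w, rfl⟩
    refine ⟨mapsTo s _, hN _ (le_max_left _ _) w, ?_⟩
    have h := hM _ (le_max_right N M) w
    rwa [pow_succ', mul_assoc] at h
  · obtain ⟨r, hr⟩ := bounded s
    refine ⟨r, fun i hi => ?_⟩
    have hcomp : ∀ x, (Sq0 s)^[i - r] ((Sq0 s)^[r] x) = (Sq0 s)^[i] x := fun x => by
      rw [← Function.iterate_add_apply, Nat.sub_add_cancel hi]
    refine ⟨?_, ?_, ?_⟩
    · rintro _ ⟨x, rfl⟩
      exact ⟨x, (hcomp x).symm⟩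
    · rintro _ ⟨x, rfl⟩ _ ⟨y, rfl⟩ hxy
      rw [hcomp, hcomp] at hxy
      have h1 : (Sq0 s)^[r + (i - r)] (x - y) = 0 := by
        rw [Nat.add_sub_cancel' hi, iter_sub, hxy, sub_self]
      have h2 := hr (i - r) (x - y) h1
      rw [iter_sub, sub_eq_zero] at h2
      exact h2
    · rintro _ ⟨x, rfl⟩
      exact ⟨(Sq0 s)^[r] x, ⟨x, rfl⟩, hcomp x⟩

end Pool.Agent.Results.MP_9c8c11_gt.StableSquaring
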